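import Mathlib
import Pool.Agent.V1120.GehFinal

set_option autoImplicit false

open MeasureTheory Set
open scoped ENNReal

namespace Pool.Agent.Results.MP_edcda5_an.GehringExponent

/-- The closed axis-parallel cube with lower corner `a` and side length `ℓ`. -/
def cube {d : ℕ} (a : Fin d → ℝ) (ℓ : ℝ) : Set (Fin d → ℝ) := Icc a (fun i => a i + ℓ)

/-- The average `⟨f⟩_Q` of a function with values in `[0, ∞]`. -/
noncomputable def avg {d : ℕ} (f : (Fin d → ℝ) → ℝ≥0∞) (Q : Set (Fin d → ℝ)) : ℝ≥0∞ :=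
  (∫⁻ x in Q, f x) / volume Q

/-- The reverse Hölder constant `[w]_{RH_p}`, the supremum over all cubes `Q` of
`⟨w ^ p⟩_Q ^ (1 / p) / ⟨w⟩_Q`, with values in `[0, ∞]`. -/
noncomputable def RHconst {d : ℕ} (p : ℝ) (w : (Fin d → ℝ) → ℝ) : ℝ≥0∞ :=
  ⨆ (a : Fin d → ℝ) (ℓ : ℝ) (_ : 0 < ℓ),
    (avg (fun x => ENNReal.ofReal (w x ^ p)) (cube a ℓ)) ^ (1 / p) /
      avg (fun x => ENNReal.ofReal (w x)) (cube a ℓ)

open Pool.Agent.V1120.Geh

lemma volume_cube {d : ℕ} (a : Fin d → ℝ) (ℓ : ℝ) (hℓ : 0 < ℓ) :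
    volume (cube a ℓ) = ENNReal.ofReal (ℓ ^ d) := by
  unfold cube
  rw [← measure_congr (H_ae_eq a ℓ), volume_H a ℓ hℓ.le]

lemma lintegral_cube {d : ℕ} (f : (Fin d → ℝ) → ℝ≥0∞) (a : Fin d → ℝ) (ℓ : ℝ) :
    ∫⁻ x in cube a ℓ, f x = ∫⁻ x in H a ℓ, f x := by
  unfold cube
  exact (setLIntegral_congr (H_ae_eq a ℓ)).symm

lemma avg_eq {d : ℕ} (f : (Fin d → ℝ) → ℝ) (hf : ∀ x, 0 ≤ f x) (a : Fin d → ℝ) (ℓ : ℝ) (hℓ : 0 < ℓ)
    (hi : IntegrableOn f (H a ℓ) volume) :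
    avg (fun x => ENNReal.ofReal (f x)) (cube a ℓ) = ENNReal.ofReal (A f a ℓ) := by
  unfold avg
  rw [volume_cube a ℓ hℓ, lintegral_cube, ← ofReal_integral_eq_lintegral_ofReal hi
    (Filter.Eventually.of_forall hf), ← ENNReal.ofReal_div_of_pos (by positivity)]
  rfl

/-- For every `d ≥ 1` and `1 < p < ∞` the constant `c = p (p - 1) / 2 ^ ((d + 1) p + 1) > 0` has the
following property: for every weight `w` on `ℝ ^ d` with `[w]_{RH_p} < ∞`, every cube `Q` and every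
`0 < ε ≤ c [w]_{RH_p} ^ (-p)` one has
`⟨w ^ (p + ε)⟩_Q ≤ 2 [w]_{RH_p} ^ (p + ε) ⟨w⟩_Q ^ (p + ε)`. -/
theorem result (d : ℕ) (_hd : 1 ≤ d) (p : ℝ) (hp : 1 < p) :
    0 < p * (p - 1) / 2 ^ (((d : ℝ) + 1) * p + 1) ∧
    ∀ w : (Fin d → ℝ) → ℝ, LocallyIntegrable w volume → (∀ x, 0 < w x) → RHconst p w ≠ ∞ →
      ∀ (a : Fin d → ℝ) (ℓ : ℝ), 0 < ℓ → ∀ ε : ℝ, 0 < ε →
        ENNReal.ofReal ε ≤
          ENNReal.ofReal (p * (p - 1) / 2 ^ (((d : ℝ) + 1) * p + 1)) * (RHconst p w) ^ (-p) →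
        avg (fun x => ENNReal.ofReal (w x ^ (p + ε))) (cube a ℓ) ≤
          2 * (RHconst p w) ^ (p + ε) *
            (avg (fun x => ENNReal.ofReal (w x)) (cube a ℓ)) ^ (p + ε) := by
  have hp1 : 0 < p - 1 := by linarith
  have h2p : 0 < (2:ℝ) ^ (((d : ℝ) + 1) * p + 1) := Real.rpow_pos_of_pos (by norm_num) _
  have hc : 0 < p * (p - 1) / 2 ^ (((d : ℝ) + 1) * p + 1) := by positivity
  refine ⟨hc, ?_⟩
  intro w hwi hw hfin a ℓ hℓ ε hε hsm
  set K : ℝ := (RHconst p w).toReal with hKdef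
  have hKof : RHconst p w = ENNReal.ofReal K := (ENNReal.ofReal_toReal hfin).symm
  have hK0 : 0 ≤ K := ENNReal.toReal_nonneg
  -- basic inequality for every cube
  have hbase : ∀ (a : Fin d → ℝ) (ℓ : ℝ), 0 < ℓ →
      avg (fun x => ENNReal.ofReal (w x ^ p)) (cube a ℓ) ≤ ENNReal.ofReal ((K * A w a ℓ) ^ p) := by
    intro a ℓ hℓ
    have hA := A_pos w hw hwi a ℓ hℓ
    have h1 : (avg (fun x => ENNReal.ofReal (w x ^ p)) (cube a ℓ)) ^ (1 / p) /
        avg (fun x => ENNReal.ofReal (w x)) (cube a ℓ) ≤ RHconst p w :=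
      le_iSup_of_le a (le_iSup_of_le ℓ (le_iSup_of_le hℓ le_rfl))
    rw [avg_eq w (fun x => (hw x).le) a ℓ hℓ (integrableOn_H w hwi a ℓ),
      ENNReal.div_le_iff (by simpa using hA) ENNReal.ofReal_ne_top, hKof,
      ← ENNReal.ofReal_mul hK0] at h1
    have h2 := ENNReal.rpow_le_rpow h1 (show 0 ≤ p by linarith)
    rw [← ENNReal.rpow_mul, one_div, inv_mul_cancel₀ (by linarith), ENNReal.rpow_one,
      ENNReal.ofReal_rpow_of_nonneg (mul_nonneg hK0 hA.le) (by linarith)] at h2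
    exact h2
  have hwp : ∀ (a : Fin d → ℝ) (ℓ : ℝ), 0 < ℓ → IntegrableOn (fun x => w x ^ p) (H a ℓ) volume := by
    intro a ℓ hℓ
    have h1 := hbase a ℓ hℓ
    have hmeas : AEStronglyMeasurable (fun x => w x ^ p) (volume.restrict (H a ℓ)) :=
      ((integrableOn_H w hwi a ℓ).aestronglyMeasurable.aemeasurable.pow_const p).aestronglyMeasurable
    refine (lintegral_ofReal_ne_top_iff_integrable hmeas
      (Filter.Eventually.of_forall (fun x => Real.rpow_nonneg (hw x).le p))).1 ?_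
    intro htop
    unfold avg at h1
    rw [lintegral_cube, htop, volume_cube a ℓ hℓ, ENNReal.top_div_of_ne_top ENNReal.ofReal_ne_top] at h1
    exact absurd (top_le_iff.1 h1) ENNReal.ofReal_ne_top
  have hRH : ∀ (a : Fin d → ℝ) (ℓ : ℝ), 0 < ℓ →
      A (fun x => w x ^ p) a ℓ ≤ K ^ p * (A w a ℓ) ^ p := by
    intro a ℓ hℓ
    have hA := A_pos w hw hwi a ℓ hℓ
    have h1 := hbase a ℓ hℓ
    rw [avg_eq _ (fun x => Real.rpow_nonneg (hw x).le p) a ℓ hℓ (hwp a ℓ hℓ)] at h1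
    rw [← Real.mul_rpow hK0 hA.le]
    exact (ENNReal.ofReal_le_ofReal_iff (Real.rpow_nonneg (mul_nonneg hK0 hA.le) p)).1 h1
  have hK1 : 1 ≤ K := by
    have hA := A_pos w hw hwi a ℓ hℓ
    have h1 := jensen w hw hwi p hp a ℓ hℓ (hwp a ℓ hℓ)
    have h2 := h1.trans (hRH a ℓ hℓ)
    have h3 : 0 < (A w a ℓ) ^ p := Real.rpow_pos_of_pos hA p
    have h4 : 1 ≤ K ^ p := by
      by_contra hcon
      push Not at hcon
      nlinarith
    by_contra hcon
    push Not at hcon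
    have := Real.rpow_lt_one hK0 hcon (show 0 < p by linarith)
    linarith
  have hKpos : 0 < K := by linarith
  have hKp : 0 < K ^ p := Real.rpow_pos_of_pos hKpos p
  -- the size of ε
  have hεc : ε * K ^ p ≤ p * (p - 1) / 2 ^ (((d : ℝ) + 1) * p + 1) := by
    rw [hKof, ENNReal.ofReal_rpow_of_pos hKpos, ← ENNReal.ofReal_mul hc.le] at hsm
    have h1 := (ENNReal.ofReal_le_ofReal_iff (by positivity)).1 hsm
    rw [Real.rpow_neg hK0] at h1
    calc ε * K ^ p ≤ (p * (p - 1) / 2 ^ (((d : ℝ) + 1) * p + 1) * (K ^ p)⁻¹) * K ^ p :=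
          mul_le_mul_of_nonneg_right h1 hKp.le
      _ = _ := by field_simp
  have e2 : (2:ℝ) ^ (((d : ℝ) + 1) * p + 1) = ((2:ℝ) ^ d) ^ p * 2 ^ p * 2 := by
    have : ((2:ℝ) ^ d) ^ p = 2 ^ ((d : ℝ) * p) := by
      rw [← Real.rpow_natCast, ← Real.rpow_mul (by norm_num)]
    rw [this, ← Real.rpow_add (by norm_num), ← Real.rpow_add_one (by norm_num)]
    congr 1; ring
  have hhalf : ((1:ℝ)/2) ^ (p - 1) * (1/2) = (2 ^ p)⁻¹ := by
    rw [← Real.rpow_add_one (by norm_num), one_div, Real.inv_rpow (by norm_num)]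
    congr 2; ring
  have hsmall : 2 * K ^ p * ε * ((2:ℝ) ^ d) ^ p ≤ eta p := by
    have h1 : eta p = p * (p - 1) * (2 ^ p)⁻¹ := by
      unfold eta; rw [mul_assoc, hhalf]
    rw [e2] at hεc
    have hSp : 0 < ((2:ℝ) ^ d) ^ p := Real.rpow_pos_of_pos (by positivity) p
    have h2 : 0 < (2:ℝ) ^ p := Real.rpow_pos_of_pos (by norm_num) p
    rw [h1]
    calc 2 * K ^ p * ε * ((2:ℝ) ^ d) ^ p = (ε * K ^ p) * (2 * ((2:ℝ) ^ d) ^ p) := by ring
      _ ≤ (p * (p - 1) / (((2:ℝ) ^ d) ^ p * 2 ^ p * 2)) * (2 * ((2:ℝ) ^ d) ^ p) :=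
          mul_le_mul_of_nonneg_right hεc (by positivity)
      _ = _ := by field_simp
  have hε1 : ε ≤ 1 := by
    have h1 : 1 ≤ K ^ p := Real.one_le_rpow hK1 (by linarith)
    have h2 : ε ≤ ε * K ^ p := by nlinarith
    have h3 : p * (p - 1) / 2 ^ (((d : ℝ) + 1) * p + 1) ≤ 1 := by
      rw [div_le_one h2p]
      have h4 : 1 + p ≤ (2:ℝ) ^ p := by
        have := one_add_mul_self_le_rpow_one_add (s := 1) (by norm_num) hp.le
        norm_num at this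
        exact this
      have h5 : (2:ℝ) ^ p * 2 ^ p ≤ 2 ^ (((d : ℝ) + 1) * p + 1) := by
        rw [← Real.rpow_add (by norm_num)]
        apply Real.rpow_le_rpow_of_exponent_le (by norm_num)
        have : (1:ℝ) ≤ d := by exact_mod_cast _hd
        nlinarith
      nlinarith
    linarith
  have hlim := limit_bound w hw hwi p ε K hp hε hε1 hK0 hwp hRH hsmall a ℓ hℓ
  have hA := A_pos w hw hwi a ℓ hℓ
  have hU := U_init p ε (A w a ℓ) (A (fun x => w x ^ p) a ℓ) K hp hε hA hK1 (hRH a ℓ hℓ)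
  have hℓd : 0 < ℓ ^ d := by positivity
  calc avg (fun x => ENNReal.ofReal (w x ^ (p + ε))) (cube a ℓ)
      = (∫⁻ x in H a ℓ, ENNReal.ofReal (w x ^ (p + ε))) / ENNReal.ofReal (ℓ ^ d) := by
        unfold avg; rw [volume_cube a ℓ hℓ, lintegral_cube]
    _ ≤ ENNReal.ofReal (U p ε (A w a ℓ) (A (fun x => w x ^ p) a ℓ) (A w a ℓ) * ℓ ^ d) /
          ENNReal.ofReal (ℓ ^ d) := ENNReal.div_le_div_right hlim _
    _ = ENNReal.ofReal (U p ε (A w a ℓ) (A (fun x => w x ^ p) a ℓ) (A w a ℓ)) := by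
        rw [← ENNReal.ofReal_div_of_pos hℓd]
        congr 1
        field_simp
    _ ≤ ENNReal.ofReal (2 * K ^ (p + ε) * (A w a ℓ) ^ (p + ε)) := ENNReal.ofReal_le_ofReal hU
    _ = _ := by
        rw [avg_eq w (fun x => (hw x).le) a ℓ hℓ (integrableOn_H w hwi a ℓ), hKof,
          ENNReal.ofReal_rpow_of_pos hKpos, ENNReal.ofReal_rpow_of_pos hA,
          ENNReal.ofReal_mul (by positivity), ENNReal.ofReal_mul (by norm_num)]
        norm_num

end Pool.Agent.Results.MP_edcda5_an.GehringExponent
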